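import Mathlib
import Pool.Agent.H.MP_ba9f40_al.A

set_option autoImplicit false

namespace Pool.Agent.Results.MP_ba9f40_al.StableNewton

open Pool.Agent.H.MP_ba9f40_al

def IsGKK {n : ℕ} (A : Matrix (Fin n) (Fin n) ℝ) : Prop :=
  (∀ (k : ℕ) (α : Fin k → Fin n), StrictMono α → 0 < (A.submatrix α α).det) ∧
  ∀ (k : ℕ) (α β : Fin k → Fin n), StrictMono α → StrictMono β →
    (Finset.univ.image α ∩ Finset.univ.image β).card + 1 = k →
    0 ≤ (A.submatrix α β).det * (A.submatrix β α).det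

def IsTau {n : ℕ} (A : Matrix (Fin n) (Fin n) ℝ) : Prop :=
  (∀ (k m : ℕ) (α : Fin (k + 1) → Fin n) (β : Fin (m + 1) → Fin n), StrictMono α → StrictMono β →
    Set.range β ⊆ Set.range α → ∃ a b : ℝ, IsLeast (spectrum ℝ (A.submatrix α α)) a ∧
      IsLeast (spectrum ℝ (A.submatrix β β)) b ∧ a ≤ b) ∧
  ∀ x ∈ spectrum ℝ A, 0 ≤ x

noncomputable def c {n : ℕ} (A : Matrix (Fin n) (Fin n) ℝ) (j : ℕ) : ℝ :=
  (∑ α ∈ Finset.univ.filter (fun α : Fin j → Fin n => StrictMono α), (A.submatrix α α).det) /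
    (n.choose j : ℝ)

theorem result :
    ∃ (n : ℕ) (A : Matrix (Fin n) (Fin n) ℝ), IsGKK A ∧ IsTau A ∧
      (∀ z ∈ spectrum ℂ (A.map ((↑) : ℝ → ℂ)), 0 < z.re) ∧
      ∃ j : ℕ, j + 2 ≤ n ∧ c A (j + 1) ^ 2 < c A j * c A (j + 2) := by
  refine ⟨4, A, ⟨A_pos, A_sign⟩, ⟨fun k m α β ha hb h => ⟨_, _, A_least α ha, A_least β hb,
    ell_mono α β ha hb h⟩, A_nonneg⟩, A_stable, 1, by norm_num, ?_⟩
  simp only [c, A_sum]
  rw [sum1, sum2, sum3]
  norm_num [Nat.choose]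

end Pool.Agent.Results.MP_ba9f40_al.StableNewton
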